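import Pool.Agent.KS6_55.SR.Sig

/-!
Partitions into distinct odd parts: a multiplicative function which is trivial on all of them is
trivial.
-/

set_option autoImplicit false

open scoped BigOperators

namespace Pool.Agent.KS6_55.SR

section comb

variable {F : ℕ → ℤˣ} {N : ℕ}

theorem all_one (h11 : 11 ≤ N) (h12 : N ≠ 12) (h13 : N ≠ 13)
    (H : ∀ (t : ℕ) (b : Fin t → ℕ), Function.Injective b → ∑ i, (2 * b i + 1) = 2 * N →
      ∏ i, F (b i) = 1)
    (h0 : F 0 = 1) (h4 : F 4 = 1) (h7 : F 7 = F 1 * F 2) :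
    ∀ b, b < N → F b = 1 := by
  have key : ∀ u v : ℤˣ, u * v = 1 → u = v := by decide
  have R2 : ∀ a b, a + b + 1 = N → F a = F b := by
    intro a b hab
    by_cases hne : a = b
    · rw [hne]
    have h := H 2 ![a, b] (by
      intro i j hij
      fin_cases i <;> fin_cases j <;> simp at hij ⊢ <;> omega) (by
      simp [Fin.sum_univ_two]; omega)
    simp [Fin.prod_univ_two] at h
    exact key _ _ h
  have R4 : ∀ a b, 1 < a → 1 < b → a ≠ b → a + b + 3 = N → F 1 * (F a * F b) = 1 := by
    intro a b ha hb hab hs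
    have h := H 4 ![0, 1, a, b] (by
      intro i j hij
      fin_cases i <;> fin_cases j <;> simp at hij ⊢ <;> omega) (by
      simp [Fin.sum_univ_four]; omega)
    simp [Fin.prod_univ_four, h0] at h
    rw [← mul_assoc]
    exact h
  have R4' : F 2 * F (N - 8) = 1 := by
    have h := H 4 ![0, 2, 4, N - 8] (by
      intro i j hij
      fin_cases i <;> fin_cases j <;> simp at hij ⊢ <;> omega) (by
      simp [Fin.sum_univ_four]; omega)
    simp [Fin.prod_univ_four, h0, h4] at h
    exact h
  have e7 : F (N - 8) = F 7 := R2 _ _ (by omega)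
  have e4 : F (N - 5) = F 4 := R2 _ _ (by omega)
  have e5 : F (N - 6) = F 5 := R2 _ _ (by omega)
  have F1 : F 1 = 1 := by
    rw [e7, h7] at R4'
    revert R4'
    generalize F 1 = x
    generalize F 2 = y
    revert x y
    decide
  have F2 : F 2 = 1 := by
    have h := R4 2 (N - 5) (by norm_num) (by omega) (by omega) (by omega)
    rw [F1, e4, h4] at h
    simpa using h
  have F7 : F 7 = 1 := by rw [h7, F1, F2, one_mul]
  have F5 : F 5 = 1 := by
    have h := R4 5 (N - 8) (by norm_num) (by omega) (by omega) (by omega)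
    rw [F1, e7, F7] at h
    simpa using h
  have F3 : F 3 = 1 := by
    have h := R4 3 (N - 6) (by norm_num) (by omega) (by omega) (by omega)
    rw [F1, e5, F5] at h
    simpa using h
  intro b
  induction b using Nat.strong_induction_on with
  | _ b ih =>
    intro hb
    by_cases h6 : b < 6
    · interval_cases b
      · exact h0
      · exact F1
      · exact F2
      · exact F3
      · exact h4
      · exact F5
    by_cases c1 : b = N - 1
    · rw [R2 b 0 (by omega), h0]
    by_cases c2 : b = N - 2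
    · rw [R2 b 1 (by omega), F1]
    have ih2 := ih (b - 2) (by omega) (by omega)
    by_cases c3 : b - 2 = N - 1 - b
    · rw [R2 b (b - 2) (by omega), ih2]
    have h := R4 (b - 2) (N - 1 - b) (by omega) (by omega) c3 (by omega)
    rw [F1, ih2, R2 (N - 1 - b) b (by omega)] at h
    simpa using h

end comb

lemma fs_congr {k k' b : ℕ} (h : k ≡ k' [MOD 2 * b + 1]) : fs k b = fs k' b := by
  have h1 : Nat.Coprime k (2 * b + 1) ↔ Nat.Coprime k' (2 * b + 1) := by
    unfold Nat.Coprime
    rw [h.gcd_eq]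
  unfold fs
  by_cases hc : Nat.Coprime k (2 * b + 1)
  · rw [dif_pos hc, dif_pos (h1.mp hc)]
    congr 2
    apply Units.ext
    rw [ZMod.coe_unitOfCoprime, ZMod.coe_unitOfCoprime]
    exact (ZMod.natCast_eq_natCast_iff _ _ _).mpr h
  · rw [dif_neg hc, dif_neg (fun h' => hc (h1.mpr h'))]

lemma fs_zero (k : ℕ) : fs k 0 = 1 := by
  unfold fs
  split_ifs with h
  · have : mu (ZMod.unitOfCoprime k h) = (1 : Equiv.Perm (ZMod (2 * 0 + 1))) := by
      refine Equiv.ext fun x => ?_
      exact Subsingleton.elim (α := Fin 1) _ _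
    rw [this, map_one]
  · rfl

theorem fs_four' : ∀ r : Fin 9, fs (r : ℕ) 4 = 1 := by decide +kernel

theorem fs_seven' : ∀ r : Fin 15, Nat.Coprime (r : ℕ) 15 →
    fs (r : ℕ) 7 = fs (r : ℕ) 1 * fs (r : ℕ) 2 := by decide +kernel

lemma fs_four (k : ℕ) : fs k 4 = 1 := by
  rw [← fs_congr (Nat.mod_modEq k 9)]
  exact fs_four' ⟨k % 9, Nat.mod_lt _ (by norm_num)⟩

lemma fs_seven {k : ℕ} (hk : Nat.Coprime k 15) : fs k 7 = fs k 1 * fs k 2 := by
  have h15 := Nat.mod_modEq k 15
  have e7 : fs (k % 15) 7 = fs k 7 := fs_congr h15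
  have e1 : fs (k % 15) 1 = fs k 1 := fs_congr (h15.of_dvd (by norm_num))
  have e2 : fs (k % 15) 2 = fs k 2 := fs_congr (h15.of_dvd (by norm_num))
  rw [← e7, ← e1, ← e2]
  refine fs_seven' ⟨k % 15, Nat.mod_lt _ (by norm_num)⟩ ?_
  show Nat.Coprime (k % 15) 15
  unfold Nat.Coprime
  rw [h15.gcd_eq]
  exact hk

end Pool.Agent.KS6_55.SR
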