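import Mathlib

open scoped BigOperators Classical MonoidAlgebra
open Representation

noncomputable section

namespace Pool.Agent.KS6_55.IC

/-- `chi` is an irreducible complex character of `G`. -/
def IsIrrChar {G : Type} [Group G] (chi : G → ℂ) : Prop :=
  ∃ (V : Type) (_ : AddCommGroup V) (_ : Module ℂ V) (_ : FiniteDimensional ℂ V)
    (rho : Representation ℂ G V), rho.IsIrreducible ∧ chi = rho.character

variable {G : Type} [Group G] [Fintype G]

/-- the bilinear form `(1/|G|) * sum_g f g * h g⁻¹` -/
def B (f h : G → ℂ) : ℂ := (Nat.card G : ℂ)⁻¹ * ∑ g : G, f g * h g⁻¹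

def IsClass (f : G → ℂ) : Prop := ∀ g y : G, f (y * g * y⁻¹) = f g

lemma cardG_ne : (Nat.card G : ℂ) ≠ 0 := by
  exact_mod_cast Nat.card_pos.ne'

lemma isClass_char {V : Type} [AddCommGroup V] [Module ℂ V] [FiniteDimensional ℂ V]
    (rho : Representation ℂ G V) : IsClass rho.character := by
  intro g y
  exact rho.char_conj g y

lemma IsIrrChar.isClass {chi : G → ℂ} (h : IsIrrChar chi) : IsClass chi := by
  obtain ⟨V, _, _, _, rho, _, rfl⟩ := h
  exact isClass_char rho

/-- the operator attached to a class function -/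
def Top {V : Type} [AddCommGroup V] [Module ℂ V] (rho : Representation ℂ G V) (f : G → ℂ) :
    V →ₗ[ℂ] V := ∑ g : G, f g • rho g⁻¹

lemma Top_zero_of_irr {V : Type} [AddCommGroup V] [Module ℂ V] [FiniteDimensional ℂ V]
    (rho : Representation ℂ G V) [hirr : rho.IsIrreducible] (f : G → ℂ) (hf : IsClass f)
    (h0 : B f rho.character = 0) : Top rho f = 0 := by
  have hcomm : ∀ (h : G) (v : V), Top rho f (rho h v) = rho h (Top rho f v) := by
    intro h v
    simp only [Top, LinearMap.sum_apply, LinearMap.smul_apply, map_sum, map_smul]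
    have : ∀ g : G, rho g⁻¹ (rho h v) = rho h (rho (h⁻¹ * g⁻¹ * h) v) := by
      intro g
      rw [← Module.End.mul_apply, ← Module.End.mul_apply, ← map_mul, ← map_mul]
      congr 2
      group
    simp_rw [this]
    refine Fintype.sum_equiv (MulAut.conj h⁻¹).toEquiv _ _ ?_
    intro g
    have e1 : (MulAut.conj h⁻¹).toEquiv g = h⁻¹ * g * h := by simp
    rw [e1]
    have h1 : f (h⁻¹ * g * h) = f g := by
      have := hf g h⁻¹
      simpa using this
    rw [h1]
    congr 4
    group
  let T : IntertwiningMap rho rho := (Top rho f).intertwiningMap_of_isIntertwiningMap rho rho hcomm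
  obtain ⟨c, hc⟩ := (Representation.IsIrreducible.algebraMap_intertwiningMap_bijective_of_isAlgClosed
    (ρ := rho)).2 T
  have hT : Top rho f = c • LinearMap.id := by
    ext v
    have := congrArg (fun S : IntertwiningMap rho rho => S v) hc
    have h2 : T v = Top rho f v := rfl
    rw [← h2]
    exact this.symm
  have htr : LinearMap.trace ℂ V (Top rho f) = ∑ g : G, f g * rho.character g⁻¹ := by
    simp [Top, Representation.character]
  have h3 : ∑ g : G, f g * rho.character g⁻¹ = 0 := by
    unfold B at h0
    rcases mul_eq_zero.mp h0 with h | h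
    · exact absurd h (inv_ne_zero cardG_ne)
    · exact h
  rw [h3, hT] at htr
  simp only [map_smul, LinearMap.trace_id, smul_eq_mul] at htr
  haveI : Nontrivial V := by
    by_contra hn
    rw [not_nontrivial_iff_subsingleton] at hn
    have : Subsingleton (Subrepresentation rho) := by
      constructor
      intro a b
      ext x
      have : x = 0 := Subsingleton.elim _ _
      subst this
      simp
    have h5 := hirr.toNontrivial
    exact not_subsingleton (Subrepresentation rho) this
  have h4 : (Module.finrank ℂ V : ℂ) ≠ 0 := by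
    exact_mod_cast (Module.finrank_pos (R := ℂ) (M := V)).ne'
  have h5 : c = 0 := by
    rcases mul_eq_zero.mp htr with h | h
    · exact h
    · exact absurd h h4
  rw [hT, h5, zero_smul]

set_option backward.isDefEq.respectTransparency false in
lemma act_zero {M : Type} [AddCommGroup M] [Module (MonoidAlgebra ℂ G) M]
    [hs : IsSimpleModule (MonoidAlgebra ℂ G) M] (f : G → ℂ) (hf : IsClass f)
    (h0 : ∀ chi : G → ℂ, IsIrrChar chi → B f chi = 0) (m : M) :
    (∑ g : G, MonoidAlgebra.single g⁻¹ (f g) : MonoidAlgebra ℂ G) • m = 0 := by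
  have hirr : (ofModule (k := ℂ) (G := G) M).IsIrreducible :=
    (isSimpleModule_iff_irreducible_ofModule M).mp hs
  have hfin : FiniteDimensional ℂ (RestrictScalars ℂ (MonoidAlgebra ℂ G) M) := by
    have hMf : Module.Finite (MonoidAlgebra ℂ G) M := by
      infer_instance
    letI : Module (MonoidAlgebra ℂ G) (RestrictScalars ℂ (MonoidAlgebra ℂ G) M) :=
      RestrictScalars.moduleOrig ℂ (MonoidAlgebra ℂ G) M
    haveI : Module.Finite (MonoidAlgebra ℂ G) (RestrictScalars ℂ (MonoidAlgebra ℂ G) M) := hMf
    haveI : Module.Finite ℂ (MonoidAlgebra ℂ G) := by infer_instance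
    exact Module.Finite.trans (MonoidAlgebra ℂ G) _
  have hT := Top_zero_of_irr (ofModule (k := ℂ) (G := G) M) f hf
    (h0 _ ⟨_, _, _, hfin, ofModule (k := ℂ) (G := G) M, hirr, rfl⟩)
  have h1 := congrArg (fun S : RestrictScalars ℂ (MonoidAlgebra ℂ G) M →ₗ[ℂ]
    RestrictScalars ℂ (MonoidAlgebra ℂ G) M =>
      (RestrictScalars.addEquiv ℂ (MonoidAlgebra ℂ G) M)
      (S ((RestrictScalars.addEquiv ℂ (MonoidAlgebra ℂ G) M).symm m))) hT
  simp only [Top, LinearMap.sum_apply, LinearMap.smul_apply, map_sum, LinearMap.zero_apply,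
    map_zero] at h1
  rw [Finset.sum_smul, ← h1]
  refine Finset.sum_congr rfl fun g _ => ?_
  have key := ofModule_asAlgebraHom_apply_apply (M := M) (MonoidAlgebra.single g⁻¹ (f g))
    ((RestrictScalars.addEquiv ℂ (MonoidAlgebra ℂ G) M).symm m)
  rw [Representation.asAlgebraHom_single, LinearMap.smul_apply] at key
  rw [key]
  simp

/-- completeness: a class function orthogonal to all irreducible characters is zero -/
theorem class_eq_zero (f : G → ℂ) (hf : IsClass f)
    (h0 : ∀ chi : G → ℂ, IsIrrChar chi → B f chi = 0) : f = 0 := by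
  set z : MonoidAlgebra ℂ G := ∑ g : G, MonoidAlgebra.single g⁻¹ (f g) with hz
  have hz0 : z = 0 := by
    have hmem : z ∈ Module.jacobson (MonoidAlgebra ℂ G) (MonoidAlgebra ℂ G) := by
      rw [Module.jacobson, Submodule.mem_sInf]
      intro I hI
      haveI hsimple : IsSimpleModule (MonoidAlgebra ℂ G) (MonoidAlgebra ℂ G ⧸ I) :=
        isSimpleModule_iff_isCoatom.mpr hI
      have h1 := act_zero f hf h0 (Submodule.Quotient.mk (p := I) (1 : MonoidAlgebra ℂ G))
      rw [← hz, ← Submodule.Quotient.mk_smul, smul_eq_mul, mul_one] at h1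
      exact (Submodule.Quotient.mk_eq_zero I).mp h1
    rw [IsSemisimpleModule.jacobson_eq_bot] at hmem
    simpa using hmem
  funext g
  have h1 := congrArg (fun w : MonoidAlgebra ℂ G => w.coeff g⁻¹) hz0
  rw [hz] at h1
  simpa [MonoidAlgebra.coeff_sum, Finsupp.single_apply] using h1

lemma B_add_left (f f' h : G → ℂ) : B (f + f') h = B f h + B f' h := by
  simp [B, add_mul, Finset.sum_add_distrib, mul_add]

lemma B_smul_left (c : ℂ) (f h : G → ℂ) : B (c • f) h = c * B f h := by
  simp only [B, Pi.smul_apply, smul_eq_mul, mul_assoc, ← Finset.mul_sum]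
  ring

lemma B_comm (f h : G → ℂ) : B f h = B h f := by
  unfold B
  congr 1
  refine Fintype.sum_equiv (Equiv.inv G) _ _ fun g => ?_
  simp [mul_comm]

lemma B_sum_left {ι : Type} (s : Finset ι) (F : ι → G → ℂ) (h : G → ℂ) :
    B (∑ i ∈ s, F i) h = ∑ i ∈ s, B (F i) h := by
  induction s using Finset.induction_on with
  | empty => simp [B]
  | insert a s ha ih => rw [Finset.sum_insert ha, B_add_left, ih, Finset.sum_insert ha]

lemma B_sub_left (f f' h : G → ℂ) : B (f - f') h = B f h - B f' h := by
  simp [B, sub_mul, Finset.sum_sub_distrib, mul_sub]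

lemma B_irr {chi psi : G → ℂ} (h1 : IsIrrChar chi) (h2 : IsIrrChar psi) :
    B chi psi = if chi = psi then 1 else 0 := by
  haveI : Invertible (Nat.card G : ℂ) := invertibleOfNonzero cardG_ne
  have key : ∀ {chi psi : G → ℂ}, IsIrrChar chi → IsIrrChar psi →
      (B chi psi = 1 ∧ chi = psi) ∨ B chi psi = 0 := by
    intro chi psi h1 h2
    obtain ⟨V, _, _, _, rho, hr, rfl⟩ := h1
    obtain ⟨W, _, _, _, sigma, hs, rfl⟩ := h2
    have h3 := Representation.char_orthonormal rho sigma
    by_cases h : Nonempty (Representation.Equiv sigma rho)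
    · left
      rw [if_pos h] at h3
      refine ⟨by simpa [B] using h3, ?_⟩
      exact (Representation.char_iso h.some).symm
    · right
      rw [if_neg h] at h3
      simpa [B] using h3
  have h11 : B chi chi = 1 := by
    obtain ⟨V, _, _, _, rho, hr, rfl⟩ := h1
    have h3 := Representation.char_orthonormal rho rho
    rw [if_pos ⟨Representation.Equiv.refl rho⟩] at h3
    simpa [B] using h3
  by_cases h : chi = psi
  · rw [if_pos h, ← h, h11]
  · rw [if_neg h]
    rcases key h1 h2 with ⟨_, h4⟩ | h4
    · exact absurd h4 h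
    · exact h4

lemma irr_finite : {chi : G → ℂ | IsIrrChar chi}.Finite := by
  have hli : LinearIndependent ℂ (fun x : {chi : G → ℂ | IsIrrChar chi} => (x : G → ℂ)) := by
    rw [linearIndependent_iff']
    intro s c hc i hi
    have h1 := congrArg (fun F => B F i.1) hc
    rw [B_sum_left] at h1
    simp only [B_smul_left] at h1
    rw [Finset.sum_eq_single i] at h1
    · rw [B_irr i.2 i.2, if_pos rfl, mul_one] at h1
      rw [h1]
      simp [B]
    · intro j _ hj
      rw [B_irr j.2 i.2, if_neg (fun h => hj (Subtype.ext h)), mul_zero]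
    · intro h
      exact absurd hi h
  exact hli.setFinite

/-- the finite set of irreducible characters -/
def Irr (G : Type) [Group G] [Fintype G] : Finset (G → ℂ) := (irr_finite (G := G)).toFinset

lemma mem_Irr {chi : G → ℂ} : chi ∈ Irr G ↔ IsIrrChar chi := by
  simp [Irr]

theorem expand (f : G → ℂ) (hf : IsClass f) : f = ∑ chi ∈ Irr G, B f chi • chi := by
  have h : f - ∑ chi ∈ Irr G, B f chi • chi = 0 := by
    apply class_eq_zero
    · intro g y
      simp only [Pi.sub_apply, Finset.sum_apply, Pi.smul_apply]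
      rw [hf g y]
      congr 1
      refine Finset.sum_congr rfl fun chi hchi => ?_
      rw [(mem_Irr.mp hchi).isClass g y]
    · intro psi hpsi
      rw [B_sub_left, B_sum_left]
      simp only [B_smul_left]
      rw [Finset.sum_eq_single psi]
      · rw [B_irr hpsi hpsi, if_pos rfl, mul_one, sub_self]
      · intro chi hchi hne
        rw [B_irr (mem_Irr.mp hchi) hpsi, if_neg hne, mul_zero]
      · intro hn
        exact absurd (mem_Irr.mpr hpsi) hn
  exact sub_eq_zero.mp h

theorem B_expand (f h : G → ℂ) (hf : IsClass f) :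
    B f h = ∑ chi ∈ Irr G, B f chi * B chi h := by
  conv_lhs => rw [expand f hf]
  rw [B_sum_left]
  simp only [B_smul_left]

end Pool.Agent.KS6_55.IC
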