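import Mathlib

/-!
The group `K` of order `64`: the semidirect product of a cyclic group of order eight and the
dihedral group of order eight, in which the rotation by `90` degrees acts as `-1` and one of the
reflections as `3`.
-/

set_option autoImplicit false

namespace Pool.Agent.KS6_55.SR

/-- The unit modulo `8` by which an element of the dihedral group acts. -/
def th : DihedralGroup 4 → ZMod 8
  | .r i => if i = 0 ∨ i = 2 then 1 else -1
  | .sr i => if i = 0 ∨ i = 2 then 3 else -3

/-- The semidirect product. -/
@[ext] structure KK where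
  a : ZMod 8
  d : DihedralGroup 4
deriving DecidableEq, Fintype

namespace KK

instance : Mul KK := ⟨fun x y => ⟨x.a + th x.d * y.a, x.d * y.d⟩⟩
instance : One KK := ⟨⟨0, 1⟩⟩
instance : Inv KK := ⟨fun x => ⟨-(th x.d⁻¹ * x.a), x.d⁻¹⟩⟩

theorem mul_def (x y : KK) : x * y = ⟨x.a + th x.d * y.a, x.d * y.d⟩ := rfl
theorem one_def : (1 : KK) = ⟨0, 1⟩ := rfl
theorem inv_def (x : KK) : x⁻¹ = ⟨-(th x.d⁻¹ * x.a), x.d⁻¹⟩ := rfl

theorem th_mul : ∀ d e : DihedralGroup 4, th (d * e) = th d * th e := by decide
theorem th_one : th 1 = 1 := by decide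

instance : Group KK where
  mul_assoc x y z := by
    ext
    · simp only [mul_def, th_mul]; ring
    · simp only [mul_def, mul_assoc]
  one_mul x := by
    ext
    · simp only [mul_def, one_def, th_one]; ring
    · simp only [mul_def, one_def, one_mul]
  mul_one x := by
    ext
    · simp only [mul_def, one_def]; ring
    · simp only [mul_def, one_def, mul_one]
  inv_mul_cancel x := by
    ext
    · simp only [mul_def, one_def, inv_def]; ring
    · simp only [mul_def, one_def, inv_def, inv_mul_cancel]

end KK

/-- the sign character -/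
def ep : KK →* ℤˣ where
  toFun x := match x.d with
    | .r _ => 1
    | .sr _ => -1
  map_one' := rfl
  map_mul' := by
    rintro ⟨a, d⟩ ⟨b, e⟩
    revert d e
    simp only [KK.mul_def]
    decide

theorem card_KK : Nat.card KK = 64 := by
  rw [Nat.card_eq_fintype_card]
  decide +kernel

theorem pow_eight : ∀ x : KK, x ^ 8 = 1 := by decide +kernel

/-- every element of the kernel is moved to its cube by an element outside the kernel -/
theorem cube_odd : ∀ x : KK, ep x = 1 → ∃ g, ep g = -1 ∧ g * x * g⁻¹ = x ^ 3 := by decide +kernel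

/-- in the kernel: `3`-semi-rationality (inside the kernel) -/
theorem semi_even : ∀ x : KK, ep x = 1 → (∃ g, ep g = 1 ∧ g * x * g⁻¹ = x ^ 5) ∨
    (∃ g, ep g = 1 ∧ g * x * g⁻¹ = x ^ 7) := by decide +kernel

/-- `3`-semi-rationality of the whole group -/
theorem semi_all : ∀ x : KK, (∃ g, g * x * g⁻¹ = x ^ 5) ∨ (∃ g, g * x * g⁻¹ = x ^ 7) := by
  decide +kernel

end Pool.Agent.KS6_55.SR
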