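import Pool.Agent.KS6_55.SR.Sig
import Pool.Agent.KS6_55.SR.KGrp

/-!
The group of pairs `(s, d)` in `S_n × K` with `sgn s = ep d` is uniformly semi-rational.
-/

set_option autoImplicit false
set_option linter.unusedSectionVars false

open scoped BigOperators
open Equiv.Perm

namespace Pool.Agent.KS6_55.SR

theorem kk_all4 : ∀ d : KK, ∀ i : Fin 4, (∃ g : KK, g * d * g⁻¹ = d ^ (2 * (i : ℕ) + 1)) ∨
    (∃ g : KK, g * d ^ 3 * g⁻¹ = d ^ (2 * (i : ℕ) + 1)) := by decide +kernel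

theorem kk_even4 : ∀ d : KK, ep d = 1 → ∀ i : Fin 4,
    (∃ g : KK, ep g = 1 ∧ g * d * g⁻¹ = d ^ (2 * (i : ℕ) + 1)) ∨
    (∃ g : KK, ep g = 1 ∧ g * d ^ 3 * g⁻¹ = d ^ (2 * (i : ℕ) + 1)) := by decide +kernel

lemma kk_mod (d : KK) {j : ℕ} (hj : Odd j) : ∃ i : Fin 4, d ^ j = d ^ (2 * (i : ℕ) + 1) := by
  obtain ⟨m, hm⟩ := hj
  refine ⟨⟨m % 4, Nat.mod_lt _ (by norm_num)⟩, ?_⟩
  show d ^ j = d ^ (2 * (m % 4) + 1)
  have h : j = 8 * (m / 4) + (2 * (m % 4) + 1) := by omega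
  rw [h, pow_add, pow_mul, pow_eight, one_pow, one_mul]

lemma kk_odd_or (d : KK) {j : ℕ} (hj : Nat.Coprime j (orderOf d)) : Odd j ∨ d = 1 := by
  rcases Nat.even_or_odd (orderOf d) with h | h
  · left
    rcases Nat.even_or_odd j with h2 | h2
    · exfalso
      have h3 : 2 ∣ Nat.gcd j (orderOf d) := Nat.dvd_gcd h2.two_dvd h.two_dvd
      rw [hj] at h3
      exact absurd h3 (by decide)
    · exact h2
  · right
    have h1 : orderOf d ∣ 2 ^ 3 := orderOf_dvd_of_pow_eq_one (pow_eight d)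
    have h2 : Nat.Coprime (orderOf d) (2 ^ 3) := Nat.Coprime.pow_right 3 h.coprime_two_right
    exact orderOf_eq_one_iff.mp (Nat.Coprime.eq_one_of_dvd h2 h1)

lemma kk_all (d : KK) {j : ℕ} (hj : Nat.Coprime j (orderOf d)) :
    (∃ g : KK, g * d * g⁻¹ = d ^ j) ∨ (∃ g : KK, g * d ^ 3 * g⁻¹ = d ^ j) := by
  rcases kk_odd_or d hj with h | h
  · obtain ⟨i, hi⟩ := kk_mod d h
    rw [hi]
    exact kk_all4 d i
  · left
    refine ⟨1, ?_⟩
    subst h
    simp

lemma kk_even (d : KK) (hd : ep d = 1) {j : ℕ} (hj : Nat.Coprime j (orderOf d)) :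
    (∃ g : KK, ep g = 1 ∧ g * d * g⁻¹ = d ^ j) ∨ (∃ g : KK, ep g = 1 ∧ g * d ^ 3 * g⁻¹ = d ^ j) := by
  rcases kk_odd_or d hj with h | h
  · obtain ⟨i, hi⟩ := kk_mod d h
    rw [hi]
    exact kk_even4 d hd i
  · left
    refine ⟨1, map_one _, ?_⟩
    subst h
    simp

lemma kk_any (d : KK) (hd : ep d = 1) {j : ℕ} (hj : Nat.Coprime j (orderOf d)) (e : ℤˣ) :
    (∃ g : KK, ep g = e ∧ g * d * g⁻¹ = d ^ j) ∨ (∃ g : KK, ep g = e ∧ g * d ^ 3 * g⁻¹ = d ^ j) := by
  rcases Int.units_eq_one_or e with he | he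
  · subst he
    exact kk_even d hd hj
  · subst he
    obtain ⟨u, hu, hu'⟩ := cube_odd d hd
    rcases kk_even d hd hj with ⟨g, hg, hg'⟩ | ⟨g, hg, hg'⟩
    · right
      refine ⟨g * u⁻¹, by rw [map_mul, map_inv, hg, hu]; decide, ?_⟩
      rw [← hg', ← hu', mul_inv_rev, inv_inv]
      simp only [mul_assoc, inv_mul_cancel_left]
    · left
      refine ⟨g * u, by rw [map_mul, hg, hu]; decide, ?_⟩
      rw [← hg', ← hu', mul_inv_rev]
      simp only [mul_assoc]

variable {n : ℕ}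

lemma cycleType_pow (s : Equiv.Perm (Fin n)) : ∀ j : ℕ, Nat.Coprime j (orderOf s) →
    (s ^ j).cycleType = s.cycleType := by
  induction s using Equiv.Perm.cycle_induction_on with
  | base_one => intro j _; simp
  | base_cycles σ hσ =>
    intro j hj
    have h1 : (σ ^ j).IsCycle := hσ.pow_iff.mpr hj
    rw [h1.cycleType, hσ.cycleType, Equiv.Perm.support_pow_coprime hj]
  | induction_disjoint σ τ hd hc hσ hτ =>
    intro j hj
    rw [hd.orderOf] at hj
    have h1 : Nat.Coprime j (orderOf σ) := Nat.Coprime.coprime_dvd_right (Nat.dvd_lcm_left _ _) hj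
    have h2 : Nat.Coprime j (orderOf τ) := Nat.Coprime.coprime_dvd_right (Nat.dvd_lcm_right _ _) hj
    rw [hd.commute.mul_pow, (hd.pow_disjoint_pow j j).cycleType_mul, hd.cycleType_mul, hσ j h1,
      hτ j h2]

lemma sn_conj (s : Equiv.Perm (Fin n)) {j : ℕ} (hj : Nat.Coprime j (orderOf s)) :
    ∃ g, g * s * g⁻¹ = s ^ j := by
  have : IsConj s (s ^ j) := Equiv.Perm.isConj_iff_cycleType_eq.mpr (cycleType_pow s j hj).symm
  exact isConj_iff.mp this

lemma sn_conj2 (s : Equiv.Perm (Fin n)) {m j : ℕ} (hm : Nat.Coprime m (orderOf s))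
    (hj : Nat.Coprime j (orderOf s)) : ∃ g, g * s ^ m * g⁻¹ = s ^ j := by
  have : IsConj (s ^ m) (s ^ j) := Equiv.Perm.isConj_iff_cycleType_eq.mpr
    ((cycleType_pow s m hm).trans (cycleType_pow s j hj).symm)
  exact isConj_iff.mp this

/-- sign times `ep` -/
def eps (n : ℕ) : Equiv.Perm (Fin n) × KK →* ℤˣ :=
  (Equiv.Perm.sign.comp (MonoidHom.fst _ _)) * (ep.comp (MonoidHom.snd _ _))

lemma eps_apply (x : Equiv.Perm (Fin n) × KK) :
    eps n x = Equiv.Perm.sign x.1 * ep x.2 := rfl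

/-- the group -/
abbrev GG (n : ℕ) : Type := (eps n).ker

lemma odd_order {s : Equiv.Perm (Fin n)} (hs : Subgroup.centralizer {s} ≤ alternatingGroup (Fin n)) :
    Odd (orderOf s) := by
  have h3 := Equiv.Perm.OnCycleFactors.odd_of_centralizer_le_alternatingGroup hs
  rw [← Equiv.Perm.lcm_cycleType]
  have h4 : s.cycleType.lcm ∣ s.cycleType.prod :=
    Multiset.lcm_dvd.mpr fun b hb => Multiset.dvd_prod hb
  refine Odd.of_dvd_nat ?_ h4
  exact Multiset.prod_induction Odd _ (fun a b ha hb => ha.mul hb) odd_one h3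

/-- conjugacy in the group, when the first components has an odd element in the centraliser -/
lemma conj_of_odd {s t : Equiv.Perm (Fin n)} {d e : KK} (hx : (s, d) ∈ (eps n).ker)
    (hy : (t, e) ∈ (eps n).ker) {z : Equiv.Perm (Fin n)} (hz : z * s = s * z)
    (hz' : Equiv.Perm.sign z = -1) {g : Equiv.Perm (Fin n)} (hg : g * s * g⁻¹ = t) {h : KK}
    (hh : h * d * h⁻¹ = e) : IsConj (⟨(s, d), hx⟩ : GG n) ⟨(t, e), hy⟩ := by
  rcases Int.units_eq_one_or (eps n (g, h)) with he | he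
  · exact isConj_iff.mpr ⟨⟨(g, h), he⟩, Subtype.ext (Prod.ext hg hh)⟩
  · refine isConj_iff.mpr ⟨⟨(g * z, h), ?_⟩, Subtype.ext (Prod.ext ?_ hh)⟩
    · rw [MonoidHom.mem_ker, eps_apply]
      rw [eps_apply] at he
      simp only [map_mul, hz'] at he ⊢
      rw [mul_neg, mul_one, neg_mul, he, neg_neg]
    · show (g * z) * s * (g * z)⁻¹ = t
      rw [mul_inv_rev, mul_assoc g z s, hz, ← hg]
      simp only [mul_assoc, mul_inv_cancel_left]

theorem semi_key (n : ℕ) : ∃ m : ℕ, ∀ x : GG n, ∀ j : ℕ, Nat.Coprime j (orderOf x) →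
    IsConj x (x ^ j) ∨ IsConj (x ^ m) (x ^ j) := by
  obtain ⟨a, b, hb, hab⟩ := Nat.exists_eq_two_pow_mul_odd (Nat.factorial_ne_zero n)
  have hcop : Nat.Coprime 8 b := by
    have h1 : Nat.Coprime 2 b := hb.coprime_two_left
    exact Nat.Coprime.pow_left 3 h1
  obtain ⟨m, hm8, hmb⟩ := Nat.chineseRemainder hcop 3 1
  have hmodd : Odd m := by
    have h : m % 8 = 3 % 8 := hm8
    rw [Nat.odd_iff]
    omega
  have hmfac : Nat.Coprime m n.factorial := by
    rw [hab]
    refine Nat.Coprime.mul_right (Nat.Coprime.pow_right _ hmodd.coprime_two_right) ?_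
    have := hmb.gcd_eq
    rwa [Nat.gcd_one_left] at this
  have hK : ∀ d : KK, d ^ m = d ^ 3 := by
    intro d
    rw [pow_eq_pow_iff_modEq]
    exact Nat.ModEq.of_dvd (orderOf_dvd_of_pow_eq_one (pow_eight d)) hm8
  have hfac : ∀ s : Equiv.Perm (Fin n), orderOf s ∣ n.factorial := by
    intro s
    have h6 := orderOf_dvd_card (x := s)
    rwa [Fintype.card_perm, Fintype.card_fin] at h6
  refine ⟨m, ?_⟩
  rintro ⟨⟨s, d⟩, hx⟩ j hj
  have hord : orderOf (⟨(s, d), hx⟩ : GG n) = Nat.lcm (orderOf s) (orderOf d) := by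
    rw [Subgroup.orderOf_mk, Prod.orderOf_mk]
  rw [hord] at hj
  have h1 : Nat.Coprime j (orderOf s) := Nat.Coprime.coprime_dvd_right (Nat.dvd_lcm_left _ _) hj
  have h2 : Nat.Coprime j (orderOf d) := Nat.Coprime.coprime_dvd_right (Nat.dvd_lcm_right _ _) hj
  have hms : Nat.Coprime m (orderOf s) := Nat.Coprime.coprime_dvd_right (hfac s) hmfac
  have hxj : (s, d) ^ j ∈ (eps n).ker := Subgroup.pow_mem _ hx j
  have hxm : (s, d) ^ m ∈ (eps n).ker := Subgroup.pow_mem _ hx m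
  obtain ⟨g1, hg1⟩ := sn_conj s h1
  by_cases hz : ∃ z : Equiv.Perm (Fin n), z * s = s * z ∧ Equiv.Perm.sign z = -1
  · obtain ⟨z, hz1, hz2⟩ := hz
    rcases kk_all d h2 with ⟨h, hh⟩ | ⟨h, hh⟩
    · left
      exact conj_of_odd hx hxj hz1 hz2 hg1 hh
    · right
      obtain ⟨g2, hg2⟩ := sn_conj2 s hms h1
      refine conj_of_odd (s := s ^ m) (d := d ^ m) hxm hxj
        ((show Commute z s from hz1).pow_right m).eq hz2 hg2 (h := h) ?_
      rw [hK]
      exact hh
  · push Not at hz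
    have hs : Subgroup.centralizer {s} ≤ alternatingGroup (Fin n) := by
      intro c hcs
      rw [Subgroup.mem_centralizer_singleton_iff] at hcs
      rw [Equiv.Perm.mem_alternatingGroup]
      exact (Int.units_eq_one_or _).resolve_right (hz c hcs)
    have hss : Equiv.Perm.sign s = 1 := (Int.units_eq_one_or _).resolve_right (hz s rfl)
    have hd : ep d = 1 := by
      have h3 := hx
      rw [MonoidHom.mem_ker, eps_apply] at h3
      simpa [hss] using h3
    have hodd : orderOf s ∣ b := by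
      have h4 : Odd (orderOf s) := odd_order hs
      have h5 : orderOf s ∣ 2 ^ a * b := by
        rw [← hab]
        exact hfac s
      exact (Nat.Coprime.pow_right a (Nat.Coprime.symm h4.coprime_two_left)).dvd_of_dvd_mul_left h5
    have hsm : s ^ m = s := by
      have h3 : m ≡ 1 [MOD orderOf s] := Nat.ModEq.of_dvd hodd hmb
      have h4 := (pow_eq_pow_iff_modEq (x := s)).mpr h3
      rw [h4, pow_one]
    have hee : Equiv.Perm.sign g1 * Equiv.Perm.sign g1 = 1 := Int.units_mul_self _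
    rcases kk_any d hd h2 (Equiv.Perm.sign g1) with ⟨h, hh', hh⟩ | ⟨h, hh', hh⟩
    · left
      refine isConj_iff.mpr ⟨⟨(g1, h), ?_⟩, Subtype.ext (Prod.ext hg1 hh)⟩
      rw [MonoidHom.mem_ker, eps_apply, hh']
      exact hee
    · right
      refine isConj_iff.mpr ⟨⟨(g1, h), ?_⟩, Subtype.ext (Prod.ext ?_ ?_)⟩
      · rw [MonoidHom.mem_ker, eps_apply, hh']
        exact hee
      · show g1 * s ^ m * g1⁻¹ = s ^ j
        rw [hsm]
        exact hg1
      · show h * d ^ m * h⁻¹ = d ^ j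
        rw [hK]
        exact hh

end Pool.Agent.KS6_55.SR
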