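import Pool.Agent.KS6_55.SR.Sep
import Pool.Agent.KS6_55.SR.Field

/-!
Exponents, the order of the group, and the choice of `n`.
-/

set_option autoImplicit false
set_option linter.unusedSectionVars false

open scoped BigOperators

namespace Pool.Agent.KS6_55.SR

/-- the odd primes up to `n` -/
def oddP (n : ℕ) : Finset ℕ := (Finset.range (n + 1)).filter fun p => p.Prime ∧ p ≠ 2

lemma mem_oddP {n p : ℕ} : p ∈ oddP n ↔ p ≤ n ∧ p.Prime ∧ p ≠ 2 := by
  simp [oddP]

lemma coprime_of_primes {n J : ℕ} (h8 : Nat.Coprime J 8) (hp : ∀ p ∈ oddP n, Nat.Coprime J p) :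
    Nat.Coprime J (8 * n.factorial) := by
  refine Nat.coprime_of_dvd fun q hq hqJ hqM => ?_
  by_cases h2 : q = 2
  · subst h2
    have : 2 ∣ Nat.gcd J 8 := Nat.dvd_gcd hqJ (by norm_num)
    rw [h8] at this
    exact absurd this (by decide)
  · have h1 : q ∣ n.factorial := by
      rcases (Nat.Prime.dvd_mul hq).mp hqM with h | h
      · exfalso
        have h3 : q ∣ 2 := hq.dvd_of_dvd_pow (show q ∣ 2 ^ 3 from h)
        exact h2 ((Nat.prime_dvd_prime_iff_eq hq Nat.prime_two).mp h3)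
      · exact h
    have h4 : q ∈ oddP n := mem_oddP.mpr ⟨(Nat.Prime.dvd_factorial hq).mp h1, hq, h2⟩
    have h5 : q ∣ Nat.gcd J q := Nat.dvd_gcd hqJ dvd_rfl
    rw [hp q h4] at h5
    exact hq.one_lt.ne' (Nat.dvd_one.mp h5)

/-- the exponents -/
theorem exists_J (n : ℕ) (a : ℕ) (ha : Odd a) (g : ∀ p : oddP n, (ZMod p.1)ˣ) :
    ∃ J : ℕ, Nat.Coprime J (8 * n.factorial) ∧ J ≡ a [MOD 8] ∧
      ∀ p : oddP n, (J : ZMod p.1) = g p := by
  let s : Option (oddP n) → ℕ := fun o => o.elim 8 fun p => p.1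
  let c : Option (oddP n) → ℕ := fun o => o.elim a fun p => (g p : ZMod p.1).val
  have hs : ∀ i ∈ (Finset.univ : Finset (Option (oddP n))), s i ≠ 0 := by
    rintro (_ | p) -
    · show (8 : ℕ) ≠ 0
      norm_num
    · exact (mem_oddP.mp p.2).2.1.ne_zero
  have h8 : ∀ p : oddP n, Nat.Coprime 8 p.1 := by
    intro p
    have h := (mem_oddP.mp p.2).2
    exact Nat.Coprime.pow_left 3 ((Nat.coprime_primes Nat.prime_two h.1).mpr h.2.symm)
  have pp : Set.Pairwise ((Finset.univ : Finset (Option (oddP n))) : Set (Option (oddP n)))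
      (Function.onFun Nat.Coprime s) := by
    rintro (_ | p) - (_ | q) - hne
    · exact absurd rfl hne
    · exact h8 q
    · exact (h8 p).symm
    · refine (Nat.coprime_primes (mem_oddP.mp p.2).2.1 (mem_oddP.mp q.2).2.1).mpr ?_
      intro h
      exact hne (congrArg some (Subtype.ext h))
  obtain ⟨J, hJ⟩ := Nat.chineseRemainderOfFinset c s Finset.univ hs pp
  have hJ8 : J ≡ a [MOD 8] := hJ none (Finset.mem_univ _)
  have hJp : ∀ p : oddP n, (J : ZMod p.1) = g p := by
    intro p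
    have hp : p.1.Prime := (mem_oddP.mp p.2).2.1
    have : NeZero p.1 := ⟨hp.ne_zero⟩
    have h1 : J ≡ (g p : ZMod p.1).val [MOD p.1] := hJ (some p) (Finset.mem_univ _)
    rw [(ZMod.natCast_eq_natCast_iff _ _ _).mpr h1, ZMod.natCast_zmod_val]
  refine ⟨J, ?_, hJ8, hJp⟩
  refine coprime_of_primes ?_ ?_
  · unfold Nat.Coprime
    rw [hJ8.gcd_eq]
    exact Nat.Coprime.pow_right 3 (Nat.coprime_two_right.mpr ha)
  · intro p hp
    have hpp : p.Prime := (mem_oddP.mp hp).2.1
    have : Fact p.Prime := ⟨hpp⟩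
    refine Nat.Coprime.symm ((Nat.Prime.coprime_iff_not_dvd hpp).mpr ?_)
    intro h
    have h1 := hJp ⟨p, hp⟩
    rw [(ZMod.natCast_eq_zero_iff _ _).mpr h] at h1
    exact (g ⟨p, hp⟩).ne_zero h1.symm

theorem degree {n N : ℕ} (hn : n = 2 * N) (h11 : 11 ≤ N) (h12 : N ≠ 12) (h13 : N ≠ 13) :
    4 * 2 ^ (oddP n).card ≤ Module.finrank ℚ (charField (GG n)) := by
  classical
  have hg : ∀ p : oddP n, ∃ u : (ZMod p.1)ˣ, ∀ x : (ZMod p.1)ˣ, x ∈ Subgroup.zpowers u := by
    intro p
    have : Fact p.1.Prime := ⟨(mem_oddP.mp p.2).2.1⟩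
    exact IsCyclic.exists_generator
  choose u hu using hg
  have hJ : ∀ i : Fin 4 × Finset (oddP n), ∃ J : ℕ, Nat.Coprime J (8 * n.factorial) ∧
      J ≡ 2 * (i.1 : ℕ) + 1 [MOD 8] ∧
      ∀ p : oddP n, (J : ZMod p.1) = ((if p ∈ i.2 then u p else 1 : (ZMod p.1)ˣ) : ZMod p.1) :=
    fun i => exists_J n _ ⟨i.1, rfl⟩ _
  choose J hJ1 hJ2 hJ3 using hJ
  have hkey : ∀ i i' : Fin 4 × Finset (oddP n), (∀ x : GG n, IsConj (x ^ J i) (x ^ J i')) →
      i.1 = i'.1 ∧ i.2 ⊆ i'.2 := by
    intro i i' H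
    obtain ⟨h1, h2⟩ := sep_key hn h11 h12 h13 (hJ1 i) (hJ1 i') H
    constructor
    · have h3 := ((hJ2 i).symm.trans h1).trans (hJ2 i')
      have h4 : (2 * (i.1 : ℕ) + 1) % 8 = (2 * (i'.1 : ℕ) + 1) % 8 := h3
      apply Fin.ext
      have := i.1.isLt
      have := i'.1.isLt
      omega
    · intro p hp
      by_contra hp'
      have hpp := (mem_oddP.mp p.2).2
      have : Fact p.1.Prime := ⟨hpp.1⟩
      obtain ⟨b, hb⟩ := hpp.1.odd_of_ne_two hpp.2
      refine h2 p.1 b hb (mem_oddP.mp p.2).1 (u p) (hu p) ?_ ?_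
      · rw [hJ3 i p, if_pos hp]
      · rw [hJ3 i' p, if_neg hp', Units.val_one]
  have hfin : Fintype (GG n) := Fintype.ofFinite _
  have hlow := lower (G := GG n) (N := 8 * n.factorial) (by positivity) exp_dvd J hJ1 (by
    intro i i' hne
    by_contra hcon
    push Not at hcon
    apply hne
    have h1 := hkey i i' hcon
    have h2 := hkey i' i fun x => (hcon x).symm
    exact Prod.ext h1.1 (Finset.Subset.antisymm h1.2 h2.2))
  rwa [Nat.card_prod, Nat.card_fin, Nat.card_eq_fintype_card, Fintype.card_finset,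
    Fintype.card_coe] at hlow

theorem card_GG (n : ℕ) : Nat.card (GG n) * 2 = n.factorial * 64 := by
  have h1 : Nat.card (Equiv.Perm (Fin n) × KK) = n.factorial * 64 := by
    rw [Nat.card_prod, card_KK, Nat.card_eq_fintype_card, Fintype.card_perm, Fintype.card_fin]
  have h2 : Function.Surjective (eps n) := by
    intro e
    rcases Int.units_eq_one_or e with h | h
    · exact ⟨1, by rw [map_one, h]⟩
    · refine ⟨(1, ⟨0, .sr 0⟩), ?_⟩
      rw [eps_apply, h]
      simp only [map_one, one_mul]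
      rfl
  have h3 : (eps n).ker.index = 2 := by
    rw [Subgroup.index_ker, MonoidHom.range_eq_top.mpr h2]
    simp
  rw [← h1, ← h3]
  exact Subgroup.card_mul_index _

theorem primes_GG (n : ℕ) :
    (Nat.card (GG n)).primeFactors.card = (oddP n).card + 1 := by
  have h0 : Nat.card (GG n) = n.factorial * 32 := by
    have := card_GG n
    omega
  have h1 : (Nat.card (GG n)).primeFactors = insert 2 (oddP n) := by
    ext p
    rw [h0, Nat.mem_primeFactors, Finset.mem_insert, mem_oddP]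
    constructor
    · rintro ⟨hp, hd, -⟩
      by_cases h2 : p = 2
      · exact Or.inl h2
      · right
        refine ⟨?_, hp, h2⟩
        rcases (Nat.Prime.dvd_mul hp).mp hd with h | h
        · exact (Nat.Prime.dvd_factorial hp).mp h
        · exfalso
          have h3 : p ∣ 2 := hp.dvd_of_dvd_pow (show p ∣ 2 ^ 5 from h)
          exact h2 ((Nat.prime_dvd_prime_iff_eq hp Nat.prime_two).mp h3)
    · rintro (rfl | ⟨h, hp, -⟩)
      · exact ⟨Nat.prime_two, Dvd.dvd.mul_left (by norm_num) _, by positivity⟩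
      · exact ⟨hp, Dvd.dvd.mul_right ((Nat.Prime.dvd_factorial hp).mpr h) _, by positivity⟩
  rw [h1, Finset.card_insert_of_notMem]
  intro h
  exact (mem_oddP.mp h).2.2 rfl

lemma oddP_count {n : ℕ} (hn : 2 ≤ n) : (oddP n).card + 1 = Nat.count Nat.Prime (n + 1) := by
  rw [Nat.count_eq_card_filter_range]
  have h1 : (Finset.range (n + 1)).filter Nat.Prime = insert 2 (oddP n) := by
    ext p
    rw [Finset.mem_filter, Finset.mem_range, Finset.mem_insert, mem_oddP]
    constructor
    · rintro ⟨h, hp⟩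
      by_cases h2 : p = 2
      · exact Or.inl h2
      · exact Or.inr ⟨by omega, hp, h2⟩
    · rintro (rfl | ⟨h, hp, -⟩)
      · exact ⟨by omega, Nat.prime_two⟩
      · exact ⟨by omega, hp⟩
  rw [h1, Finset.card_insert_of_notMem]
  intro h
  exact (mem_oddP.mp h).2.2 rfl

/-- the choice of `n` -/
theorem choose_n (l : ℕ) (hl : 8 ≤ l) : ∃ n N : ℕ, n = 2 * N ∧ 11 ≤ N ∧ N ≠ 12 ∧ N ≠ 13 ∧
    (oddP n).card + 1 = l := by
  rcases Nat.lt_or_ge l 10 with h | h
  · interval_cases l
    · refine ⟨22, 11, rfl, by norm_num, by norm_num, by norm_num, ?_⟩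
      rw [oddP_count (by norm_num)]
      decide +kernel
    · refine ⟨28, 14, rfl, by norm_num, by norm_num, by norm_num, ?_⟩
      rw [oddP_count (by norm_num)]
      decide +kernel
  · have hinf := Nat.infinite_setOfPred_prime
    set p := Nat.nth Nat.Prime (l - 1) with hp
    have hpp : p.Prime := Nat.nth_mem_of_infinite hinf _
    have h29 : 29 ≤ p := by
      have h1 : Nat.count Nat.Prime 29 = 9 := by decide +kernel
      have h2 : Nat.nth Nat.Prime (Nat.count Nat.Prime 29) = 29 :=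
        Nat.nth_count (by norm_num)
      rw [h1] at h2
      rw [← h2, hp]
      exact Nat.nth_monotone hinf (by omega)
    obtain ⟨k, hk⟩ := hpp.odd_of_ne_two (by omega)
    refine ⟨p + 1, k + 1, by omega, by omega, by omega, by omega, ?_⟩
    rw [oddP_count (by omega)]
    rw [Nat.count_succ, Nat.count_succ, if_pos hpp, if_neg, hp, Nat.count_nth_of_infinite hinf]
    · omega
    · intro h2
      have h3 := h2.odd_of_ne_two (by omega)
      rw [hk, Nat.odd_iff] at h3
      omega

end Pool.Agent.KS6_55.SR
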