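import Pool.Agent.KS6_55.SR.Grp
import Pool.Agent.KS6_55.SR.Comb

/-!
An exponent `k` with `x ^ k` conjugate to `x` for all `x` in the group is `1` modulo `8`, and acts
with sign one modulo all odd numbers below `n`.
-/

set_option autoImplicit false

open scoped BigOperators
open Equiv.Perm

namespace Pool.Agent.KS6_55.SR

theorem ex_tau : ∃ d : KK, ep d = -1 ∧ (∀ g : KK, g * d * g⁻¹ ≠ d ^ 3) ∧
    (∀ g : KK, g * d * g⁻¹ ≠ d ^ 7) := by
  refine ⟨⟨1, .sr 1⟩, ?_⟩
  decide +kernel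

/-- the element of order four -/
def uu : KK := ⟨0, .r 1⟩

/-- the element of order eight -/
def rr : KK := ⟨1, 1⟩

theorem uu_cent : ∀ g : KK, g * uu * g⁻¹ = uu → ep g = 1 := by decide +kernel
theorem uu_pow5 : uu ^ 5 = uu := by decide +kernel
theorem uu_ep : ep uu = 1 := by decide +kernel
theorem rr_conj : ∀ g : KK, g * rr * g⁻¹ = rr ^ 5 → ep g = -1 := by decide +kernel
theorem rr_ep : ep rr = 1 := by decide +kernel

lemma kk_pow_mod (d : KK) (k : ℕ) : d ^ k = d ^ (k % 8) := by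
  conv_lhs => rw [← Nat.div_add_mod k 8]
  rw [pow_add, pow_mul, pow_eight, one_pow, one_mul]

variable {n : ℕ}

/-- `k` fixes all conjugacy classes -/
def Fixes (n k : ℕ) : Prop := ∀ x : GG n, IsConj x (x ^ k)

lemma Fixes.prod {k : ℕ} (H : Fixes n k) {s : Equiv.Perm (Fin n)} {d : KK}
    (h : Equiv.Perm.sign s * ep d = 1) : ∃ (g1 : Equiv.Perm (Fin n)) (g2 : KK),
      Equiv.Perm.sign g1 * ep g2 = 1 ∧ g1 * s * g1⁻¹ = s ^ k ∧ g2 * d * g2⁻¹ = d ^ k := by
  obtain ⟨⟨⟨g1, g2⟩, hg⟩, hgc⟩ := isConj_iff.mp (H ⟨(s, d), h⟩)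
  have hgc' := congrArg Subtype.val hgc
  exact ⟨g1, g2, hg, congrArg Prod.fst hgc', congrArg Prod.snd hgc'⟩

lemma Fixes.mod_four {k : ℕ} (hn : 2 ≤ n) (hk : Odd k) (H : Fixes n k) :
    k % 8 = 1 ∨ k % 8 = 5 := by
  obtain ⟨d, hd, hd3, hd7⟩ := ex_tau
  have hsw : Equiv.Perm.sign (Equiv.swap (⟨0, by omega⟩ : Fin n) ⟨1, by omega⟩) = -1 := by
    apply Equiv.Perm.sign_swap
    intro h
    exact absurd (congrArg Fin.val h) (by norm_num)
  obtain ⟨g1, g2, -, -, hg2⟩ := H.prod (s := Equiv.swap (⟨0, by omega⟩ : Fin n) ⟨1, by omega⟩)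
    (d := d) (by rw [hsw, hd]; decide)
  rw [kk_pow_mod d k] at hg2
  have h8 : k % 8 < 8 := Nat.mod_lt _ (by norm_num)
  obtain ⟨m, hm⟩ := hk
  have h3 : k % 8 ≠ 3 := by
    intro h
    rw [h] at hg2
    exact hd3 _ hg2
  have h7 : k % 8 ≠ 7 := by
    intro h
    rw [h] at hg2
    exact hd7 _ hg2
  omega

lemma Fixes.part {k : ℕ} (hn : 2 ≤ n) (hk : Odd k) (H : Fixes n k)
    (hkn : ∀ b, 2 * b + 1 ≤ n → Nat.Coprime k (2 * b + 1)) {t : ℕ} (b : Fin t → ℕ)
    (hb : Function.Injective b) (hs : ∑ i, (2 * b i + 1) = n) : ∏ i, fs k (b i) = 1 := by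
  obtain ⟨s, hs1, -, hs3⟩ := exists_s b hb hs
  obtain ⟨g1, g2, hg, hg1, hg2⟩ := H.prod (s := s) (d := uu) (by rw [hs1, uu_ep]; rfl)
  have hu : uu ^ k = uu := by
    rw [kk_pow_mod]
    rcases H.mod_four hn hk with h | h
    · rw [h, pow_one]
    · rw [h, uu_pow5]
  rw [hu] at hg2
  rw [uu_cent g2 hg2, mul_one] at hg
  rw [← hg]
  symm
  refine hs3 k (fun i => hkn _ ?_) g1 ?_
  · rw [← hs]
    exact Finset.single_le_sum (f := fun i => 2 * b i + 1) (fun _ _ => Nat.zero_le _)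
      (Finset.mem_univ i)
  · rw [← hg1]
    group

lemma Fixes.mod_eight {k N : ℕ} (hn : n = 2 * N) (hN : 2 ≤ N) (hk : Odd k) (H : Fixes n k)
    (hkn : ∀ b, 2 * b + 1 ≤ n → Nat.Coprime k (2 * b + 1)) : k % 8 = 1 := by
  rcases H.mod_four (by omega) hk with h | h
  · exact h
  exfalso
  have hb : Function.Injective ![0, N - 1] := by
    intro i j hij
    fin_cases i <;> fin_cases j <;> simp at hij ⊢ <;> omega
  have hs : ∑ i, (2 * ![0, N - 1] i + 1) = n := by
    simp [Fin.sum_univ_two]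
    omega
  have hp := H.part (by omega) hk hkn ![0, N - 1] hb hs
  obtain ⟨s, hs1, -, hs3⟩ := exists_s ![0, N - 1] hb hs
  obtain ⟨g1, g2, hg, hg1, hg2⟩ := H.prod (s := s) (d := rr) (by rw [hs1, rr_ep]; rfl)
  rw [kk_pow_mod, h] at hg2
  rw [rr_conj g2 hg2] at hg
  have h1 : Equiv.Perm.sign g1 = ∏ i, fs k (![0, N - 1] i) := by
    refine hs3 k (fun i => hkn _ ?_) g1 ?_
    · rw [← hs]
      exact Finset.single_le_sum (f := fun i => 2 * ![0, N - 1] i + 1) (fun _ _ => Nat.zero_le _)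
        (Finset.mem_univ i)
    · rw [← hg1]
      group
  rw [h1, hp] at hg
  exact absurd hg (by decide)

theorem Fixes.fs_one {k N : ℕ} (hn : n = 2 * N) (h11 : 11 ≤ N) (h12 : N ≠ 12) (h13 : N ≠ 13)
    (hk : Odd k) (H : Fixes n k)
    (hkn : ∀ b, 2 * b + 1 ≤ n → Nat.Coprime k (2 * b + 1)) : ∀ b, b < N → fs k b = 1 := by
  refine all_one h11 h12 h13 ?_ (fs_zero k) (fs_four k) (fs_seven (hkn 7 (by omega)))
  intro t b hb hs
  exact H.part (by omega) hk hkn b hb (by omega)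

/-- multiplication by a primitive root is odd -/
lemma sign_mu {q : ℕ} [Fact q.Prime] (hq : q ≠ 2) {u : (ZMod q)ˣ}
    (hu : ∀ x : (ZMod q)ˣ, x ∈ Subgroup.zpowers u) :
    Equiv.Perm.sign (mu u) = -1 := by
  have hzp : ∀ (i : ℤ) (x : ZMod q), (mu u ^ i) x = ((u ^ i : (ZMod q)ˣ) : ZMod q) * x := by
    intro i x
    unfold mu
    rw [← map_zpow]
    rfl
  have hp : q.Prime := Fact.out
  have hu1 : (u : ZMod q) ≠ 1 := by
    intro h
    have h1 : u = 1 := Units.ext h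
    have h2 := hu (-1)
    rw [h1, Subgroup.zpowers_one_eq_bot, Subgroup.mem_bot] at h2
    have h3 : (-1 : ZMod q) = 1 := congrArg Units.val h2
    have : Fact (2 < q) := ⟨lt_of_le_of_ne hp.two_le (Ne.symm hq)⟩
    exact ZMod.neg_one_ne_one h3
  have hcyc : (mu u).IsCycle := by
    refine ⟨1, ?_, ?_⟩
    · rw [mu_apply, mul_one]
      exact hu1
    · intro y hy
      have hy0 : y ≠ 0 := by
        rintro rfl
        exact hy (by rw [mu_apply, mul_zero])
      obtain ⟨i, hi⟩ := Subgroup.mem_zpowers_iff.mp (hu (Units.mk0 y hy0))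
      refine ⟨i, ?_⟩
      rw [hzp, hi, Units.val_mk0, mul_one]
  have hsupp : (mu u).support = Finset.univ.erase 0 := by
    ext y
    rw [Equiv.Perm.mem_support, Finset.mem_erase, mu_apply]
    constructor
    · intro h
      exact ⟨fun h0 => h (by rw [h0, mul_zero]), Finset.mem_univ _⟩
    · rintro ⟨h, -⟩ h1
      apply hu1
      have h2 : ((u : ZMod q) - 1) * y = 0 := by rw [sub_mul, h1, one_mul, sub_self]
      rcases mul_eq_zero.mp h2 with h3 | h3
      · exact sub_eq_zero.mp h3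
      · exact absurd h3 h
  rw [hcyc.sign, hsupp, Finset.card_erase_of_mem (Finset.mem_univ _), Finset.card_univ, ZMod.card]
  have : Even (q - 1) := by
    obtain ⟨k, hk⟩ := hp.odd_of_ne_two hq
    exact ⟨k, by omega⟩
  rw [this.neg_one_pow]

lemma fs_prim {q b k : ℕ} [Fact q.Prime] (hb : q = 2 * b + 1) (hq : q ≠ 2) {u : (ZMod q)ˣ}
    (hu : ∀ x : (ZMod q)ˣ, x ∈ Subgroup.zpowers u) (hk : (k : ZMod q) = u) : fs k b = -1 := by
  subst hb
  have hp : (2 * b + 1).Prime := Fact.out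
  have hc : Nat.Coprime k (2 * b + 1) := by
    refine Nat.Coprime.symm ((Nat.Prime.coprime_iff_not_dvd hp).mpr ?_)
    intro h
    rw [← ZMod.natCast_eq_zero_iff, hk] at h
    exact u.ne_zero h
  unfold fs
  rw [dif_pos hc]
  have : ZMod.unitOfCoprime k hc = u := Units.ext (by rw [ZMod.coe_unitOfCoprime, hk])
  rw [this]
  exact sign_mu hq hu

lemma exp_dvd (x : GG n) : x ^ (8 * n.factorial) = 1 := by
  obtain ⟨⟨s, d⟩, hx⟩ := x
  apply Subtype.ext
  refine Prod.ext ?_ ?_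
  · show s ^ (8 * n.factorial) = 1
    have h : s ^ n.factorial = 1 := by
      have h1 := pow_card_eq_one (x := s)
      rwa [Fintype.card_perm, Fintype.card_fin] at h1
    rw [mul_comm, pow_mul, h, one_pow]
  · show d ^ (8 * n.factorial) = 1
    rw [pow_mul, pow_eight, one_pow]

/-- two exponents which give the same classes -/
theorem sep_key {N : ℕ} (hn : n = 2 * N) (h11 : 11 ≤ N) (h12 : N ≠ 12) (h13 : N ≠ 13)
    {J J' : ℕ} (hJ : Nat.Coprime J (8 * n.factorial)) (hJ' : Nat.Coprime J' (8 * n.factorial))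
    (H : ∀ x : GG n, IsConj (x ^ J) (x ^ J')) :
    J ≡ J' [MOD 8] ∧ ∀ q b : ℕ, ∀ [Fact q.Prime], q = 2 * b + 1 → q ≤ n → ∀ u : (ZMod q)ˣ,
      (∀ x : (ZMod q)ˣ, x ∈ Subgroup.zpowers u) → (J : ZMod q) = u → (J' : ZMod q) = 1 →
        False := by
  set M := 8 * n.factorial with hM
  have hM1 : 1 < M := by
    have := Nat.factorial_pos n
    omega
  obtain ⟨i, hi⟩ : ∃ i, J' * i ≡ 1 [MOD M] := by
    obtain ⟨i, -, hi⟩ := Nat.exists_mul_mod_eq_one_of_coprime hJ' hM1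
    refine ⟨i, ?_⟩
    show J' * i % M = 1 % M
    rw [hi, Nat.mod_eq_of_lt hM1]
  have hpow : ∀ (x : GG n) {a b : ℕ}, a ≡ b [MOD M] → x ^ a = x ^ b := by
    intro x a b hab
    rw [pow_eq_pow_iff_modEq]
    exact hab.of_dvd (orderOf_dvd_of_pow_eq_one (exp_dvd x))
  have hic : Nat.Coprime i M := by
    have h1 : Nat.Coprime (J' * i) M := by
      unfold Nat.Coprime
      rw [hi.gcd_eq, Nat.gcd_one_left]
    exact h1.coprime_mul_left
  have hF : Fixes n (J * i) := by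
    intro x
    have h1 := H (x ^ i)
    rw [← pow_mul, ← pow_mul, mul_comm i J, mul_comm i J', hpow x hi, pow_one] at h1
    exact h1.symm
  have hkc : Nat.Coprime (J * i) M := Nat.Coprime.mul_left hJ hic
  have hkodd : Odd (J * i) := by
    rw [← Nat.coprime_two_right]
    exact Nat.Coprime.coprime_dvd_right (by rw [hM]; exact ⟨4 * n.factorial, by ring⟩) hkc
  have hkn : ∀ b, 2 * b + 1 ≤ n → Nat.Coprime (J * i) (2 * b + 1) := by
    intro b hb
    exact Nat.Coprime.coprime_dvd_right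
      (Dvd.dvd.mul_left (Nat.dvd_factorial (by omega) hb) 8) hkc
  have h8 : J * i ≡ 1 [MOD 8] := by
    show (J * i) % 8 = 1 % 8
    rw [hF.mod_eight hn (by omega) hkodd hkn]
  constructor
  · have h1 : J * i * J' ≡ 1 * J' [MOD 8] := h8.mul_right J'
    have h2 : J * (J' * i) ≡ J * 1 [MOD 8] :=
      (hi.of_dvd (by rw [hM]; exact Dvd.intro _ rfl)).mul_left J
    rw [one_mul] at h1
    rw [mul_one] at h2
    have h3 : J * i * J' = J * (J' * i) := by ring
    rw [h3] at h1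
    exact h2.symm.trans h1
  · intro q b hq hqb hqn u hu hJu hJ1
    have hp : q.Prime := hq.out
    have h1 : fs (J * i) b = 1 := hF.fs_one hn h11 h12 h13 hkodd hkn b (by omega)
    have h2 : ((J * i : ℕ) : ZMod q) = u := by
      have h3 : ((J' * i : ℕ) : ZMod q) = 1 := by
        have h4 := (ZMod.natCast_eq_natCast_iff (J' * i) 1 q).mpr
          (hi.of_dvd (Dvd.dvd.mul_left (Nat.dvd_factorial hp.pos hqn) 8))
        rw [h4, Nat.cast_one]
      rw [Nat.cast_mul, hJ1, one_mul] at h3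
      rw [Nat.cast_mul, h3, mul_one, hJu]
    rw [fs_prim hqb (by omega) hu h2] at h1
    exact absurd h1 (by decide)

end Pool.Agent.KS6_55.SR
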