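import Mathlib

/-!
Permutations with cycles of distinct odd lengths: the sign of the elements which conjugate such a
permutation to one of its powers.
-/

set_option autoImplicit false

open scoped BigOperators
open Equiv.Perm

namespace Pool.Agent.KS6_55.SR

/-- multiplication by a unit -/
def mu {a : ℕ} (u : (ZMod a)ˣ) : Equiv.Perm (ZMod a) := MulAction.toPermHom (ZMod a)ˣ (ZMod a) u

lemma mu_apply {a : ℕ} (u : (ZMod a)ˣ) (x : ZMod a) : mu u x = (u : ZMod a) * x := rfl

lemma mu_mul {a : ℕ} (u v : (ZMod a)ˣ) : mu (u * v) = mu u * mu v := by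
  unfold mu
  rw [map_mul]

/-- the sign of the multiplication by `k` on `ZMod (2 b + 1)` -/
def fs (k b : ℕ) : ℤˣ :=
  if h : Nat.Coprime k (2 * b + 1) then Equiv.Perm.sign (mu (ZMod.unitOfCoprime k h)) else 1

section sigma

variable {ι : Type} [Fintype ι] [DecidableEq ι] {β : ι → Type} [∀ i, Fintype (β i)]
  [∀ i, DecidableEq (β i)]

lemma sign_single (i : ι) (σ : Equiv.Perm (β i)) :
    Equiv.Perm.sign (Equiv.Perm.sigmaCongrRight
      (fun j => if h : j = i then (h ▸ σ : Equiv.Perm (β j)) else 1) :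
        Equiv.Perm (Σ j, β j)) = Equiv.Perm.sign σ := by
  symm
  refine Equiv.Perm.sign_bij (fun x _ => (⟨i, x⟩ : Σ j, β j)) ?_ ?_ ?_
  · intro x hx hx'
    simp
  · intro x y hx hy h
    simpa using h
  · rintro ⟨j, y⟩ hy
    by_cases h : j = i
    · subst h
      refine ⟨y, ?_, rfl⟩
      intro hy2
      apply hy
      simp [hy2]
    · exfalso
      apply hy
      simp [h]

lemma sign_sigma (σ : ∀ i, Equiv.Perm (β i)) :
    Equiv.Perm.sign (Equiv.Perm.sigmaCongrRight σ : Equiv.Perm (Σ j, β j)) =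
      ∏ i, Equiv.Perm.sign (σ i) := by
  have key : ∀ S : Finset ι, Equiv.Perm.sign (Equiv.Perm.sigmaCongrRight
      (fun j => if j ∈ S then σ j else 1) : Equiv.Perm (Σ j, β j)) =
        ∏ i ∈ S, Equiv.Perm.sign (σ i) := by
    intro S
    induction S using Finset.induction_on with
    | empty =>
      simp only [Finset.notMem_empty, if_false, Finset.prod_empty]
      have : (Equiv.Perm.sigmaCongrRight (fun _ => 1) : Equiv.Perm (Σ j, β j)) = 1 := by
        refine Equiv.ext ?_
        rintro ⟨j, y⟩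
        rfl
      rw [this, map_one]
    | insert i S hi ih =>
      rw [Finset.prod_insert hi, ← ih, ← sign_single i (σ i), ← map_mul]
      congr 1
      refine Equiv.ext ?_
      rintro ⟨j, x⟩
      by_cases h : j = i
      · subst h
        simp [hi]
      · simp [h]
  have h := key Finset.univ
  simpa using h

end sigma

section cyc

variable {t : ℕ} (b : Fin t → ℕ)

/-- the underlying set -/
abbrev Om : Type := Σ i : Fin t, ZMod (2 * b i + 1)

/-- cycles of lengths `2 b i + 1` -/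
def sg : Equiv.Perm (Om b) := Equiv.Perm.sigmaCongrRight fun _ => Equiv.addRight 1

lemma sg_pow (k : ℕ) (i : Fin t) (x : ZMod (2 * b i + 1)) :
    (sg b ^ k) (⟨i, x⟩ : Om b) = ⟨i, x + k⟩ := by
  induction k generalizing x with
  | zero => simp
  | succ k ih =>
    rw [pow_succ', Equiv.Perm.mul_apply, ih]
    simp [sg, add_assoc]

/-- the product of the lengths -/
def len : ℕ := ∏ i, (2 * b i + 1)

lemma len_odd : Odd (len b) := by
  unfold len
  exact Finset.prod_induction _ Odd (fun _ _ h1 h2 => h1.mul h2) odd_one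
    (fun i _ => ⟨b i, rfl⟩)

lemma dvd_len (i : Fin t) : 2 * b i + 1 ∣ len b :=
  Finset.dvd_prod_of_mem (fun i => 2 * b i + 1) (Finset.mem_univ i)

lemma cast_len (i : Fin t) : ((len b : ℕ) : ZMod (2 * b i + 1)) = 0 := by
  rw [ZMod.natCast_eq_zero_iff]
  exact dvd_len b i

lemma sg_pow_len : sg b ^ len b = 1 := by
  refine Equiv.ext ?_
  rintro ⟨i, x⟩
  rw [sg_pow, cast_len, add_zero]
  rfl

lemma unit_pow_odd {u : ℤˣ} {k : ℕ} (hk : Odd k) (h : u ^ k = 1) : u = 1 := by
  rcases Int.units_eq_one_or u with h1 | h1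
  · exact h1
  · rw [h1, hk.neg_one_pow] at h
    exact absurd h (by decide)

lemma sign_sg : Equiv.Perm.sign (sg b) = 1 := by
  apply unit_pow_odd (len_odd b)
  rw [← map_pow, sg_pow_len, map_one]

/-- `c` preserves the cycles, as their lengths are different -/
lemma cent_block (hb : Function.Injective b) {c : Equiv.Perm (Om b)} (hc : c * sg b = sg b * c)
    (i : Fin t) : ∃ a : ZMod (2 * b i + 1), c ⟨i, 0⟩ = ⟨i, a⟩ := by
  have hck' : ∀ (k : ℕ) (z : Om b), c ((sg b ^ k) z) = (sg b ^ k) (c z) := by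
    intro k z
    have := congrArg (fun f : Equiv.Perm (Om b) => f z) ((show Commute c (sg b) from hc).pow_right k).eq
    exact this
  rcases h : c ⟨i, 0⟩ with ⟨j, a⟩
  have h1 : ((2 * b i + 1 : ℕ) : ZMod (2 * b j + 1)) = 0 := by
    have h2 := hck' (2 * b i + 1) ⟨i, 0⟩
    rw [sg_pow, ZMod.natCast_self, add_zero, h, sg_pow] at h2
    have h3 := eq_of_heq (Sigma.mk.inj h2).2
    exact left_eq_add.mp h3
  have h1' : ((2 * b j + 1 : ℕ) : ZMod (2 * b i + 1)) = 0 := by
    have h2 := hck' (2 * b j + 1) ⟨i, 0⟩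
    rw [sg_pow, h, sg_pow, ZMod.natCast_self, add_zero, ← h] at h2
    have h3 := c.injective h2
    have h4 := eq_of_heq (Sigma.mk.inj h3).2
    simpa using h4
  rw [ZMod.natCast_eq_zero_iff] at h1 h1'
  have h5 : i = j := hb (by have := Nat.dvd_antisymm h1 h1'; omega)
  subst h5
  exact ⟨a, rfl⟩

lemma cent_sign (hb : Function.Injective b) {c : Equiv.Perm (Om b)} (hc : c * sg b = sg b * c) :
    Equiv.Perm.sign c = 1 := by
  have hck' : ∀ (k : ℕ) (z : Om b), c ((sg b ^ k) z) = (sg b ^ k) (c z) := by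
    intro k z
    have := congrArg (fun f : Equiv.Perm (Om b) => f z) ((show Commute c (sg b) from hc).pow_right k).eq
    exact this
  choose a ha using cent_block b hb hc
  have hl : ∀ (i : Fin t) (x : ZMod (2 * b i + 1)), c ⟨i, x⟩ = ⟨i, a i + x⟩ := by
    intro i x
    have h1 := hck' x.val ⟨i, 0⟩
    rw [sg_pow, ha, sg_pow, ZMod.natCast_zmod_val, zero_add] at h1
    exact h1
  have hlk : ∀ (k : ℕ) (i : Fin t) (x : ZMod (2 * b i + 1)),
      (c ^ k) ⟨i, x⟩ = ⟨i, k * a i + x⟩ := by
    intro k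
    induction k with
    | zero => intro i x; simp
    | succ k ih =>
      intro i x
      rw [pow_succ', Equiv.Perm.mul_apply, ih, hl]
      push_cast
      ring_nf
  have hc1 : c ^ len b = 1 := by
    refine Equiv.ext ?_
    rintro ⟨i, x⟩
    rw [hlk, cast_len, zero_mul, zero_add]
    rfl
  apply unit_pow_odd (len_odd b)
  rw [← map_pow, hc1, map_one]

lemma conj_sign (hb : Function.Injective b) {k : ℕ} (hk : ∀ i, Nat.Coprime k (2 * b i + 1))
    {g : Equiv.Perm (Om b)} (hg : g * sg b = sg b ^ k * g) :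
    Equiv.Perm.sign g = ∏ i, fs k (b i) := by
  let g0 : Equiv.Perm (Om b) :=
    Equiv.Perm.sigmaCongrRight fun i => mu (ZMod.unitOfCoprime k (hk i))
  have h0 : g0 * sg b = sg b ^ k * g0 := by
    refine Equiv.ext ?_
    rintro ⟨i, x⟩
    rw [Equiv.Perm.mul_apply, Equiv.Perm.mul_apply]
    show g0 ⟨i, x + 1⟩ = (sg b ^ k) ⟨i, mu (ZMod.unitOfCoprime k (hk i)) x⟩
    rw [sg_pow]
    show (⟨i, mu (ZMod.unitOfCoprime k (hk i)) (x + 1)⟩ : Om b) = _
    rw [mu_apply, mu_apply, ZMod.coe_unitOfCoprime, mul_add, mul_one]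
  have h1 : Equiv.Perm.sign g0 = ∏ i, fs k (b i) := by
    show Equiv.Perm.sign (Equiv.Perm.sigmaCongrRight
      fun i => mu (ZMod.unitOfCoprime k (hk i)) : Equiv.Perm (Om b)) = _
    rw [sign_sigma]
    refine Finset.prod_congr rfl fun i _ => ?_
    rw [fs, dif_pos (hk i)]
  have h2 : (g0⁻¹ * g) * sg b = sg b * (g0⁻¹ * g) := by
    rw [mul_assoc, hg, ← mul_assoc, ← mul_assoc]
    congr 1
    rw [inv_mul_eq_iff_eq_mul, ← mul_assoc, h0, mul_assoc, mul_inv_cancel, mul_one]
  have h3 := cent_sign b hb h2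
  rw [map_mul, map_inv, h1] at h3
  have h4 : Equiv.Perm.sign g = (∏ i, fs k (b i)) * ((∏ i, fs k (b i))⁻¹ * Equiv.Perm.sign g) := by
    rw [mul_inv_cancel_left]
  rw [h4, h3, mul_one]

/-- the permutation attached to a partition into distinct odd parts -/
theorem exists_s (hb : Function.Injective b) {n : ℕ} (hn : ∑ i, (2 * b i + 1) = n) :
    ∃ s : Equiv.Perm (Fin n), Equiv.Perm.sign s = 1 ∧
      (∀ c : Equiv.Perm (Fin n), c * s = s * c → Equiv.Perm.sign c = 1) ∧
      ∀ k : ℕ, (∀ i, Nat.Coprime k (2 * b i + 1)) → ∀ g : Equiv.Perm (Fin n),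
        g * s = s ^ k * g → Equiv.Perm.sign g = ∏ i, fs k (b i) := by
  have hcard : Fintype.card (Om b) = Fintype.card (Fin n) := by
    rw [Fintype.card_sigma, Fintype.card_fin, ← hn]
    exact Finset.sum_congr rfl fun i _ => ZMod.card _
  let e : Om b ≃ Fin n := Fintype.equivOfCardEq hcard
  let E : Equiv.Perm (Om b) ≃* Equiv.Perm (Fin n) := e.permCongrHom
  have hE : ∀ g, Equiv.Perm.sign (E g) = Equiv.Perm.sign g := fun g =>
    Equiv.Perm.sign_permCongr e g
  have hE' : ∀ g, Equiv.Perm.sign (E.symm g) = Equiv.Perm.sign g := fun g => by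
    rw [← hE, MulEquiv.apply_symm_apply]
  refine ⟨E (sg b), ?_, ?_, ?_⟩
  · rw [hE, sign_sg]
  · intro c hc
    rw [← hE']
    apply cent_sign b hb
    apply E.injective
    rw [map_mul, map_mul, MulEquiv.apply_symm_apply]
    exact hc
  · intro k hk g hg
    rw [← hE']
    apply conj_sign b hb hk
    apply E.injective
    rw [map_mul, map_mul, map_pow, MulEquiv.apply_symm_apply]
    exact hg

end cyc

end Pool.Agent.KS6_55.SR
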